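import Pool.Agent.H74R2.WT.Res
import Pool.Agent.H940R.WT.N3
import Pool.Agent.H940R.WT.N4

/-!
# MP_2c7cbe_co: all-purpose tiles (Grünbaum–Shephard)

No polygon whose angles are rational multiples of `π` is an all-purpose tile; more generally, no
polygon such that `√3` is not a sum of squares in the field generated by `√3` and the slopes of its
sides.  Such a polygon cannot have both a monohedral tiling with 4-fold and one with 3-fold rotational
wallpaper symmetry, and it misses at least three of the wallpaper groups (the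
30°-60°-90° triangle misses exactly three).
-/

set_option autoImplicit false

open Set

namespace Pool.Agent.Results.MP_2c7cbe_co.NotAllPurpose

/-- Prototiles: compact sets that are the closure of their nonempty interior. Every polygon is one. -/
def Region (P : Set ℂ) : Prop :=
  IsCompact P ∧ (interior P).Nonempty ∧ P ⊆ closure (interior P)

/-- `T` is a monohedral tiling of the plane with prototile `P` (reflected copies are allowed). -/
def IsTiling (P : Set ℂ) (T : Set (Set ℂ)) : Prop :=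
  (∀ A ∈ T, ∃ g : ℂ ≃ᵢ ℂ, A = g '' P) ∧ ⋃₀ T = univ ∧
    T.Pairwise (fun A B => Disjoint (interior A) (interior B))

/-- The symmetry group of `T`: the isometries `g` such that `g` and `g⁻¹` map every tile of `T` onto
a tile of `T`. -/
def Sym (T : Set (Set ℂ)) : Subgroup (ℂ ≃ᵢ ℂ) where
  carrier := {g | (∀ A ∈ T, (g : ℂ ≃ᵢ ℂ) '' A ∈ T) ∧ ∀ A ∈ T, (g⁻¹ : ℂ ≃ᵢ ℂ) '' A ∈ T}
  one_mem' := by
    constructor <;> intro A hA <;> simpa using hA
  mul_mem' := by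
    rintro g h ⟨hg, hg'⟩ ⟨hh, hh'⟩
    constructor
    · intro A hA
      have := hg _ (hh A hA)
      rw [image_image] at this
      exact this
    · intro A hA
      have := hh' _ (hg' A hA)
      rw [image_image] at this
      rw [mul_inv_rev]
      exact this
  inv_mem' := by
    rintro g ⟨hg, hg'⟩
    refine ⟨hg', ?_⟩
    rw [inv_inv]
    exact hg

/-- The images of some bounded set under the elements of `G` cover the plane. -/
def Cocompact (G : Subgroup (ℂ ≃ᵢ ℂ)) : Prop :=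
  ∃ B : Set ℂ, Bornology.IsBounded B ∧ ∀ z : ℂ, ∃ g ∈ G, ∃ w ∈ B, g w = z

/-- Wallpaper groups (plane crystallographic groups): cocompact, and every point `p` has a positive
distance from the other points of its orbit. -/
def IsWallpaper (G : Subgroup (ℂ ≃ᵢ ℂ)) : Prop :=
  Cocompact G ∧ ∀ p : ℂ, ∃ δ > 0, ∀ g ∈ G, g p ≠ p → δ ≤ dist p (g p)

/-- `P` realizes the (isomorphism) type of `G`: the symmetry group of some monohedral tiling with
prototile `P` is a wallpaper group isomorphic to `G`. -/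
def Realizes (P : Set ℂ) (G : Subgroup (ℂ ≃ᵢ ℂ)) : Prop :=
  ∃ T : Set (Set ℂ), IsTiling P T ∧ IsWallpaper (Sym T) ∧ Nonempty (Sym T ≃* G)

/-- All-purpose tiles. -/
def AllPurpose (P : Set ℂ) : Prop := ∀ G : Subgroup (ℂ ≃ᵢ ℂ), IsWallpaper G → Realizes P G

/-- The conclusion: (i) `P` does not have both a monohedral tiling whose symmetry group is cocompact
and has an element of order 4 and one whose symmetry group is cocompact and has an element of
order 3; (ii) `P` misses at least three types of wallpaper groups; (iii) `P` is not all-purpose. -/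
def Concl (P : Set ℂ) : Prop :=
  (¬ ∃ T T' : Set (Set ℂ), IsTiling P T ∧ IsTiling P T' ∧ Cocompact (Sym T) ∧ Cocompact (Sym T') ∧
    (∃ g ∈ Sym T, orderOf g = 4) ∧ (∃ g ∈ Sym T', orderOf g = 3)) ∧
  (∃ G : Fin 3 → Subgroup (ℂ ≃ᵢ ℂ), (∀ i, IsWallpaper (G i)) ∧
    (∀ i j, i ≠ j → IsEmpty (G i ≃* G j)) ∧ ∀ i, ¬ Realizes P (G i)) ∧
  ¬ AllPurpose P

theorem region_iff (P : Set ℂ) : Region P ↔ H74R2.WT.Region P :=
  ⟨fun h => ⟨h.1, h.2.1, h.2.2⟩, fun h => ⟨h.1, h.2, h.3⟩⟩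

theorem isTiling_iff (P : Set ℂ) (T : Set (Set ℂ)) : IsTiling P T ↔ H74R2.WT.IsTiling P T :=
  ⟨fun h => ⟨h.1, h.2.1, h.2.2⟩, fun h => ⟨h.1, h.2, h.3⟩⟩

theorem sym_eq (T : Set (Set ℂ)) : Sym T = H74R2.WT.Sym T := rfl

theorem realizes_iff (P : Set ℂ) (G : Subgroup (ℂ ≃ᵢ ℂ)) : Realizes P G ↔ H74R2.WT.Realizes P G := by
  constructor
  · rintro ⟨T, h1, h2, h3⟩
    exact ⟨T, (isTiling_iff P T).1 h1, h2, h3⟩
  · rintro ⟨T, h1, h2, h3⟩
    exact ⟨T, (isTiling_iff P T).2 h1, h2, h3⟩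

theorem concl_of (P : Set ℂ) (h : H74R2.WT.Concl3 P) : Concl P := by
  obtain ⟨h1, ⟨G, g1, g2, g3⟩, h3⟩ := h
  refine ⟨?_, ⟨G, g1, g2, fun i hi => g3 i ((realizes_iff P _).1 hi)⟩, ?_⟩
  · rintro ⟨T, T', a, b, c, d, e, f⟩
    exact h1 T T' ((isTiling_iff P T).1 a) ((isTiling_iff P T').1 b) c d e f
  · intro hall
    exact h3 (fun G hG => (realizes_iff P G).1 (hall G hG))

theorem result :
    (∀ K : Subfield ℝ, Real.sqrt 3 ∈ K →
      (¬ ∃ l : List ℝ, (∀ a ∈ l, a ∈ K) ∧ (l.map (fun a => a ^ 2)).sum = Real.sqrt 3) →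
      ∀ α : ℂ, α ≠ 0 → ∀ P : Set ℂ, Region P →
      (∃ s : Finset (ℂ × ℂ), (∀ q ∈ s, q.2.re ∈ K ∧ q.2.im ∈ K ∧ q.2 ≠ 0) ∧
        frontier P ⊆ {w | ∃ q ∈ s, ∃ t : ℝ, w = q.1 + t * (α * q.2)}) → Concl P) ∧
    (∀ F : Subfield ℝ, Real.sqrt 3 ∉ F → ∀ α : ℂ, α ≠ 0 → ∀ P : Set ℂ, Region P →
      (∃ s : Finset (ℂ × ℂ), (∀ q ∈ s, ∃ (ζ z : ℂ) (n : ℕ), 0 < n ∧ ζ ^ n = 1 ∧
          (∃ a ∈ F, ∃ b ∈ F, z.re = a + b * Real.sqrt 3) ∧
          (∃ a ∈ F, ∃ b ∈ F, z.im = a + b * Real.sqrt 3) ∧ z ≠ 0 ∧ q.2 = α * ζ * z) ∧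
        frontier P ⊆ {w | ∃ q ∈ s, ∃ t : ℝ, w = q.1 + t * q.2}) → Concl P) ∧
    (∀ α : ℂ, α ≠ 0 → ∀ P : Set ℂ, Region P →
      (∃ s : Finset (ℂ × ℂ), (∀ q ∈ s, ∃ n : ℕ, 0 < n ∧ q.2 ^ n = 1) ∧
        frontier P ⊆ {w | ∃ q ∈ s, ∃ t : ℝ, w = q.1 + t * (α * q.2)}) → Concl P) ∧
    (∀ F : Subfield ℝ, Real.sqrt 3 ∉ F → ∀ P : Set ℂ, Region P →
      (∃ s : Finset (ℂ × ℂ), (∀ q ∈ s, q.1.re ∈ F ∧ q.1.im ∈ F ∧ q.2.re ∈ F ∧ q.2.im ∈ F) ∧
        frontier P ⊆ ⋃ q ∈ s, segment ℝ q.1 q.2) → Concl P) := by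
  obtain ⟨h1, h2, h3, h4⟩ := H74R2.WT.res H74R2.WT.t_N4 H74R2.WT.t_N3
  exact ⟨fun K hK hss α hα P hP hs => concl_of P (h1 K hK hss α hα P ((region_iff P).1 hP) hs),
    fun F hF α hα P hP hs => concl_of P (h2 F hF α hα P ((region_iff P).1 hP) hs),
    fun α hα P hP hs => concl_of P (h3 α hα P ((region_iff P).1 hP) hs),
    fun F hF P hP hs => concl_of P (h4 F hF P ((region_iff P).1 hP) hs)⟩

end Pool.Agent.Results.MP_2c7cbe_co.NotAllPurpose
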